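import Mathlib
import Pool.Agent.TH651.RP5.Engine

/-!
Tools for explicit planar graphs without large induced forests.
-/

set_option autoImplicit false

namespace Pool.TH412.AB

open Pool.Agent.TH651.RP5

/-- A graph on `Fin n` is planar: its vertices can be placed at distinct points of the plane and its
edges drawn as simple arcs that avoid all other vertices and meet only at vertices. -/
def IsPlanar {n : ℕ} (G : SimpleGraph (Fin n)) : Prop :=
  ∃ p : Fin n → ℝ × ℝ, Function.Injective p ∧
    ∃ γ : ∀ u v : Fin n, Path (p u) (p v),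
      (∀ u v : Fin n, G.Adj u v → Function.Injective ⇑(γ u v)) ∧
      (∀ u v w : Fin n, G.Adj u v → ∀ t : unitInterval, γ u v t = p w → w = u ∨ w = v) ∧
      (∀ u v x y : Fin n, G.Adj u v → G.Adj x y → s(u, v) ≠ s(x, y) →
        ∀ t t' : unitInterval, γ u v t = γ x y t' → ∃ w : Fin n, γ u v t = p w)

/-- adjacency from a list of bit masks -/
def adjB (nb : List ℕ) (u v : ℕ) : Bool := (nb.getD u 0).testBit v && (nb.getD v 0).testBit u

/-- the graph given by a list of bit masks of neighbourhoods -/
def gr (n : ℕ) (nb : List ℕ) : SimpleGraph (Fin n) where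
  Adj u v := u ≠ v ∧ adjB nb u v = true
  symm := ⟨fun u v h => ⟨h.1.symm, by
    have := h.2
    unfold adjB at this ⊢
    rw [Bool.and_comm]
    exact this⟩⟩
  loopless := ⟨fun _ h => h.1 rfl⟩

/-! ### the drawing -/

section draw

variable {n : ℕ} (nb : List ℕ) (co : List (ℤ × ℤ))

/-- orientation determinant of three vertices -/
def orient (u v w : ℕ) : ℤ :=
  ((co.getD v (0, 0)).1 - (co.getD u (0, 0)).1) * ((co.getD w (0, 0)).2 - (co.getD u (0, 0)).2)
    - ((co.getD v (0, 0)).2 - (co.getD u (0, 0)).2) * ((co.getD w (0, 0)).1 - (co.getD u (0, 0)).1)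

/-- both `x`, `y` are weakly on one side of the line `u v`, and not both on it -/
def side (u v x y : ℕ) : Bool :=
  (decide (0 ≤ orient co u v x) && decide (0 ≤ orient co u v y) &&
    decide (0 < orient co u v x + orient co u v y)) ||
  (decide (orient co u v x ≤ 0) && decide (orient co u v y ≤ 0) &&
    decide (orient co u v x + orient co u v y < 0))

/-- the list of all edges -/
def edges (n : ℕ) (nb : List ℕ) : List (ℕ × ℕ) :=
  (List.range n).flatMap fun u => ((List.range n).filter fun v => adjB nb u v).map fun v => (u, v)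

/-- the numerical check of the straight line drawing -/
def drawOk (n : ℕ) (nb : List ℕ) (co : List (ℤ × ℤ)) : Bool :=
  ((List.range n).all fun u => (List.range n).all fun v =>
    decide (u = v) || decide (co.getD u (0, 0) ≠ co.getD v (0, 0))) &&
  ((edges n nb).all fun e => (List.range n).all fun w =>
    decide (w = e.1) || decide (w = e.2) || decide (orient co e.1 e.2 w ≠ 0)) &&
  ((edges n nb).all fun e => (edges n nb).all fun f =>
    (decide (e.1 = f.1) && decide (e.2 = f.2)) || (decide (e.1 = f.2) && decide (e.2 = f.1)) ||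
      side co e.1 e.2 f.1 f.2 || side co f.1 f.2 e.1 e.2)

/-- the position of a vertex -/
noncomputable def pos (v : ℕ) : ℝ × ℝ := (((co.getD v (0, 0)).1 : ℝ), ((co.getD v (0, 0)).2 : ℝ))

/-- straight line path -/
noncomputable def arc (u v : ℕ) : Path (pos co u) (pos co v) where
  toFun := fun t => ((1 - (t : ℝ)) * (pos co u).1 + (t : ℝ) * (pos co v).1,
    (1 - (t : ℝ)) * (pos co u).2 + (t : ℝ) * (pos co v).2)
  continuous_toFun := by fun_prop
  source' := by simp
  target' := by simp

lemma arc_apply (u v : ℕ) (t : unitInterval) :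
    arc co u v t = ((1 - (t : ℝ)) * (pos co u).1 + (t : ℝ) * (pos co v).1,
    (1 - (t : ℝ)) * (pos co u).2 + (t : ℝ) * (pos co v).2) := rfl

/-- real orientation determinant -/
noncomputable def cR (a b z : ℝ × ℝ) : ℝ :=
  (b.1 - a.1) * (z.2 - a.2) - (b.2 - a.2) * (z.1 - a.1)

lemma cR_pos (u v w : ℕ) : cR (pos co u) (pos co v) (pos co w) = (orient co u v w : ℝ) := by
  unfold cR pos orient
  push_cast
  ring

lemma cR_self (u v : ℕ) (t : unitInterval) : cR (pos co u) (pos co v) (arc co u v t) = 0 := by
  rw [arc_apply]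
  unfold cR
  ring

lemma cR_seg (u v x y : ℕ) (t : unitInterval) :
    cR (pos co u) (pos co v) (arc co x y t) =
      (1 - (t : ℝ)) * (orient co u v x : ℝ) + (t : ℝ) * (orient co u v y : ℝ) := by
  rw [← cR_pos, ← cR_pos, arc_apply]
  unfold cR
  ring

lemma arc_inj (u v : ℕ) (hp : pos co u ≠ pos co v) : Function.Injective (⇑(arc co u v)) := by
  intro s t hst
  rw [arc_apply, arc_apply, Prod.mk.injEq] at hst
  obtain ⟨h1, h2⟩ := hst
  have h1' : ((s : ℝ) - t) * ((pos co v).1 - (pos co u).1) = 0 := by linarith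
  have h2' : ((s : ℝ) - t) * ((pos co v).2 - (pos co u).2) = 0 := by linarith
  by_contra hne
  have hst' : (s : ℝ) - t ≠ 0 := by
    intro hh
    apply hne
    apply Subtype.ext
    linarith
  have e1 := (mul_eq_zero.mp h1').resolve_left hst'
  have e2 := (mul_eq_zero.mp h2').resolve_left hst'
  apply hp
  exact Prod.ext (by linarith) (by linarith)

lemma side_ne (u v x y : ℕ) (h : side co u v x y = true) (b : unitInterval) (h0 : b ≠ 0)
    (h1 : b ≠ 1) : cR (pos co u) (pos co v) (arc co x y b) ≠ 0 := by
  rw [cR_seg]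
  have hb0 : 0 < (b : ℝ) := lt_of_le_of_ne b.2.1 (fun hh => h0 (Subtype.ext hh.symm))
  have hb1 : (b : ℝ) < 1 := lt_of_le_of_ne b.2.2 (fun hh => h1 (Subtype.ext hh))
  unfold side at h
  simp only [Bool.or_eq_true, Bool.and_eq_true, decide_eq_true_eq] at h
  rcases h with ⟨⟨ha, hb⟩, hc⟩ | ⟨⟨ha, hb⟩, hc⟩
  · have ha' : (0 : ℝ) ≤ (orient co u v x : ℝ) := by exact_mod_cast ha
    have hb' : (0 : ℝ) ≤ (orient co u v y : ℝ) := by exact_mod_cast hb
    have hc' : (0 : ℝ) < (orient co u v x : ℝ) + (orient co u v y : ℝ) := by exact_mod_cast hc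
    have e1 : 0 ≤ (1 - (b : ℝ)) * (orient co u v x : ℝ) := mul_nonneg (by linarith) ha'
    have e2 : 0 ≤ (b : ℝ) * (orient co u v y : ℝ) := mul_nonneg hb0.le hb'
    intro hz
    have z1 : (1 - (b : ℝ)) * (orient co u v x : ℝ) = 0 := by linarith
    have z2 : (b : ℝ) * (orient co u v y : ℝ) = 0 := by linarith
    have w1 := (mul_eq_zero.mp z1).resolve_left (by linarith)
    have w2 := (mul_eq_zero.mp z2).resolve_left (by linarith)
    linarith
  · have ha' : (orient co u v x : ℝ) ≤ 0 := by exact_mod_cast ha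
    have hb' : (orient co u v y : ℝ) ≤ 0 := by exact_mod_cast hb
    have hc' : (orient co u v x : ℝ) + (orient co u v y : ℝ) < 0 := by exact_mod_cast hc
    have e1 : (1 - (b : ℝ)) * (orient co u v x : ℝ) ≤ 0 :=
      mul_nonpos_of_nonneg_of_nonpos (by linarith) ha'
    have e2 : (b : ℝ) * (orient co u v y : ℝ) ≤ 0 :=
      mul_nonpos_of_nonneg_of_nonpos hb0.le hb'
    intro hz
    have z1 : (1 - (b : ℝ)) * (orient co u v x : ℝ) = 0 := by linarith
    have z2 : (b : ℝ) * (orient co u v y : ℝ) = 0 := by linarith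
    have w1 := (mul_eq_zero.mp z1).resolve_left (by linarith)
    have w2 := (mul_eq_zero.mp z2).resolve_left (by linarith)
    linarith

lemma mem_edges {n : ℕ} {nb : List ℕ} {u v : Fin n} (h : (gr n nb).Adj u v) :
    ((u : ℕ), (v : ℕ)) ∈ edges n nb := by
  unfold edges
  rw [List.mem_flatMap]
  refine ⟨u, List.mem_range.mpr u.2, ?_⟩
  rw [List.mem_map]
  exact ⟨v, List.mem_filter.mpr ⟨List.mem_range.mpr v.2, h.2⟩, rfl⟩

theorem isPlanar_of_drawOk (n : ℕ) (nb : List ℕ) (co : List (ℤ × ℤ))
    (hok : drawOk n nb co = true) : IsPlanar (gr n nb) := by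
  unfold drawOk at hok
  rw [Bool.and_eq_true, Bool.and_eq_true] at hok
  obtain ⟨⟨k1, k2⟩, k3⟩ := hok
  rw [List.all_eq_true] at k1 k2 k3
  have hinj : Function.Injective fun v : Fin n => pos co v := by
    intro u v h
    by_contra hne
    have h1 := k1 u (List.mem_range.mpr u.2)
    rw [List.all_eq_true] at h1
    have h2 := h1 v (List.mem_range.mpr v.2)
    rw [Bool.or_eq_true, decide_eq_true_eq, decide_eq_true_eq] at h2
    rcases h2 with h2 | h2
    · exact hne (Fin.ext h2)
    · apply h2
      simp only [pos, Prod.mk.injEq] at h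
      obtain ⟨ha, hb⟩ := h
      exact Prod.ext (by exact_mod_cast ha) (by exact_mod_cast hb)
  have hne : ∀ u v : Fin n, (gr n nb).Adj u v → pos co u ≠ pos co v :=
    fun u v h hh => h.1 (hinj hh)
  refine ⟨fun v => pos co v, hinj, fun u v => arc co u v, ?_, ?_, ?_⟩
  · intro u v h
    exact arc_inj co u v (hne u v h)
  · intro u v w h t hw
    have h1 := k2 _ (mem_edges h)
    rw [List.all_eq_true] at h1
    have h2 := h1 w (List.mem_range.mpr w.2)
    simp only [Bool.or_eq_true, decide_eq_true_eq] at h2
    rcases h2 with (h2 | h2) | h2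
    · exact Or.inl (Fin.ext h2)
    · exact Or.inr (Fin.ext h2)
    · exfalso
      apply h2
      have h3 := cR_self co u v t
      have hw' : arc co u v t = pos co w := hw
      rw [hw', cR_pos] at h3
      exact_mod_cast h3
  · intro u v x y h h' hne' t t' htt
    have h1 := k3 _ (mem_edges h)
    rw [List.all_eq_true] at h1
    have h2 := h1 _ (mem_edges h')
    simp only [Bool.or_eq_true, Bool.and_eq_true, decide_eq_true_eq] at h2
    have htt' : arc co u v t = arc co x y t' := htt
    rcases h2 with ((h2 | h2) | h2) | h2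
    · exfalso
      apply hne'
      have e1 : u = x := Fin.ext h2.1
      have e2 : v = y := Fin.ext h2.2
      rw [e1, e2]
    · exfalso
      apply hne'
      have e1 : u = y := Fin.ext h2.1
      have e2 : v = x := Fin.ext h2.2
      rw [e1, e2]
      exact Sym2.eq_swap
    · by_cases hb0 : t' = 0
      · refine ⟨x, ?_⟩
        change arc co u v t = pos co x
        rw [htt', hb0]
        exact (arc co x y).source
      by_cases hb1 : t' = 1
      · refine ⟨y, ?_⟩
        change arc co u v t = pos co y
        rw [htt', hb1]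
        exact (arc co x y).target
      exfalso
      apply side_ne co u v x y h2 t' hb0 hb1
      rw [← htt']
      exact cR_self co u v t
    · by_cases hb0 : t = 0
      · refine ⟨u, ?_⟩
        change arc co u v t = pos co u
        rw [hb0]
        exact (arc co u v).source
      by_cases hb1 : t = 1
      · refine ⟨v, ?_⟩
        change arc co u v t = pos co v
        rw [hb1]
        exact (arc co u v).target
      exfalso
      apply side_ne co x y u v h2 t hb0 hb1
      rw [htt']
      exact cR_self co x y t'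

end draw

/-! ### cycles -/

theorem not_isAcyclic_of_cyclic {V : Type} (H : SimpleGraph V) (k : ℕ) (hk : 3 ≤ k) (f : ℕ → V)
    (hf : ∀ i j, i < k → j < k → f i = f j → i = j)
    (hadj : ∀ i, i + 1 < k → H.Adj (f i) (f (i + 1))) (hlast : H.Adj (f 0) (f (k - 1))) :
    ¬ H.IsAcyclic := by
  intro hac
  rw [SimpleGraph.isAcyclic_iff_forall_adj_isBridge] at hac
  have hb := hac hlast
  rw [SimpleGraph.isBridge_iff] at hb
  apply hb
  have key : ∀ i, i < k → (H \ SimpleGraph.fromEdgeSet {s(f 0, f (k - 1))}).Reachable (f 0) (f i) := by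
    intro i
    induction i with
    | zero => intro _; exact SimpleGraph.Reachable.refl _
    | succ i ih =>
      intro hi
      refine (ih (by omega)).trans ?_
      apply SimpleGraph.Adj.reachable
      rw [SimpleGraph.sdiff_adj]
      refine ⟨hadj i hi, ?_⟩
      rw [SimpleGraph.fromEdgeSet_adj]
      rintro ⟨h1, -⟩
      rw [Set.mem_singleton_iff, Sym2.eq_iff] at h1
      rcases h1 with ⟨h1, h2⟩ | ⟨h1, h2⟩
      · have e1 := hf i 0 (by omega) (by omega) h1
        have e2 := hf (i + 1) (k - 1) hi (by omega) h2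
        omega
      · have e1 := hf i (k - 1) (by omega) (by omega) h1
        omega
  exact key (k - 1) (by omega)

/-- the list is a cycle of the graph -/
def cycOk (n : ℕ) (nb : List ℕ) (c : List ℕ) : Bool :=
  decide (3 ≤ c.length) && decide c.Nodup && (c.all fun v => decide (v < n)) &&
  ((List.range (c.length - 1)).all fun i => adjB nb (c.getD i 0) (c.getD (i + 1) 0)) &&
  adjB nb (c.getD 0 0) (c.getD (c.length - 1) 0)

/-- membership of a vertex, as a boolean -/
noncomputable def mem {n : ℕ} (S : Finset (Fin n)) (v : ℕ) : Bool :=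
  if h : v < n then decide ((⟨v, h⟩ : Fin n) ∈ S) else false

theorem cycle_avoids {n : ℕ} {nb : List ℕ} {S : Finset (Fin n)}
    (hac : ((gr n nb).induce (S : Set (Fin n))).IsAcyclic) (c : List ℕ)
    (hc : cycOk n nb c = true) : ∃ v ∈ c, mem S v = false := by
  by_contra hcon
  push Not at hcon
  unfold cycOk at hc
  simp only [Bool.and_eq_true, decide_eq_true_eq, List.all_eq_true] at hc
  obtain ⟨⟨⟨⟨h3, hnd⟩, hlt⟩, hadj⟩, hlast⟩ := hc
  have hmem : ∀ v ∈ c, ∃ h : v < n, (⟨v, h⟩ : Fin n) ∈ S := by
    intro v hv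
    have h1 := hcon v hv
    rw [ne_eq, Bool.not_eq_false] at h1
    unfold mem at h1
    have hvn : v < n := by simpa using hlt v hv
    rw [dif_pos hvn, decide_eq_true_eq] at h1
    exact ⟨hvn, h1⟩
  have h0 : c.getD 0 0 ∈ c := by
    rw [List.getD_eq_getElem _ _ (by omega)]
    exact List.getElem_mem _
  have hget : ∀ i, i < c.length → c.getD i 0 ∈ c := by
    intro i hi
    rw [List.getD_eq_getElem _ _ hi]
    exact List.getElem_mem _
  let f : ℕ → (S : Set (Fin n)) := fun i =>
    if h : i < c.length then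
      ⟨⟨c.getD i 0, (hmem _ (hget i h)).choose⟩, (hmem _ (hget i h)).choose_spec⟩
    else ⟨⟨c.getD 0 0, (hmem _ h0).choose⟩, (hmem _ h0).choose_spec⟩
  have hfv : ∀ i, i < c.length → ((f i).1 : ℕ) = c.getD i 0 := by
    intro i hi
    simp only [f]
    rw [dif_pos hi]
  refine not_isAcyclic_of_cyclic _ c.length h3 f ?_ ?_ ?_ hac
  · intro i j hi hj hij
    have e1 : c.getD i 0 = c.getD j 0 := by rw [← hfv i hi, ← hfv j hj, hij]
    rw [List.getD_eq_getElem _ _ hi, List.getD_eq_getElem _ _ hj] at e1
    exact (List.Nodup.getElem_inj_iff hnd).mp e1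
  · intro i hi
    have h1 := hadj i (List.mem_range.mpr (by omega))
    rw [SimpleGraph.comap_adj]
    refine ⟨?_, ?_⟩
    · intro heq
      have e0 : ((f i).1 : ℕ) = ((f (i + 1)).1 : ℕ) := congrArg Fin.val heq
      rw [hfv i (by omega), hfv (i + 1) hi, List.getD_eq_getElem _ _ (by omega : i < c.length),
        List.getD_eq_getElem _ _ hi] at e0
      have := (List.Nodup.getElem_inj_iff hnd).mp e0
      omega
    · change adjB nb ((f i).1 : ℕ) ((f (i + 1)).1 : ℕ) = true
      rw [hfv i (by omega), hfv (i + 1) hi]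
      exact h1
  · rw [SimpleGraph.comap_adj]
    refine ⟨?_, ?_⟩
    · intro heq
      have e0 : ((f 0).1 : ℕ) = ((f (c.length - 1)).1 : ℕ) := congrArg Fin.val heq
      rw [hfv 0 (by omega), hfv (c.length - 1) (by omega),
        List.getD_eq_getElem _ _ (by omega : 0 < c.length),
        List.getD_eq_getElem _ _ (by omega : c.length - 1 < c.length)] at e0
      have := (List.Nodup.getElem_inj_iff hnd).mp e0
      omega
    · change adjB nb ((f 0).1 : ℕ) ((f (c.length - 1)).1 : ℕ) = true
      rw [hfv 0 (by omega), hfv (c.length - 1) (by omega)]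
      exact hlast

end Pool.TH412.AB
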