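import Mathlib
import Pool.Agent.TH651.RP5.Engine
import Pool.Agent.TH412.AB.Core

/-!
A sequential counter for the number of vertices outside a set, and the reduction of an upper bound
for the order of an induced forest to a unit propagation refutation.
-/

set_option autoImplicit false

namespace Pool.TH412.AB

open Pool.Agent.TH651.RP5

variable {n : ℕ}

/-- number of vertices below `t` outside `S` -/
noncomputable def cnt (S : Finset (Fin n)) (t : ℕ) : ℕ :=
  ((Finset.range t).filter fun v => mem S v = false).card

lemma cnt_succ_false (S : Finset (Fin n)) (t : ℕ) (h : mem S t = false) :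
    cnt S (t + 1) = cnt S t + 1 := by
  unfold cnt
  rw [Finset.range_add_one, Finset.filter_insert, if_pos h, Finset.card_insert_of_notMem]
  simp

lemma cnt_mono (S : Finset (Fin n)) {a b : ℕ} (h : a ≤ b) : cnt S a ≤ cnt S b := by
  unfold cnt
  apply Finset.card_le_card
  intro x hx
  rw [Finset.mem_filter, Finset.mem_range] at hx ⊢
  exact ⟨lt_of_lt_of_le hx.1 h, hx.2⟩

lemma cnt_all (S : Finset (Fin n)) : cnt S n + S.card = n := by
  have h1 : ((Finset.range n).filter fun v => ¬ mem S v = false).card = S.card := by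
    rw [← Finset.card_map (f := Fin.valEmbedding) (s := S)]
    congr 1
    ext v
    rw [Finset.mem_filter, Finset.mem_range, Finset.mem_map]
    constructor
    · rintro ⟨hv, hm⟩
      unfold mem at hm
      rw [dif_pos hv] at hm
      have h2 : (⟨v, hv⟩ : Fin n) ∈ S := by
        by_contra hcon
        exact hm (by simpa using hcon)
      exact ⟨⟨v, hv⟩, h2, rfl⟩
    · rintro ⟨w, hw, rfl⟩
      refine ⟨w.2, ?_⟩
      unfold mem
      rw [dif_pos (show Fin.valEmbedding w < n from w.2)]
      simpa using hw
  have h2 := Finset.card_filter_add_card_filter_not (s := Finset.range n)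
    (fun v => mem S v = false)
  rw [Finset.card_range, h1] at h2
  exact h2

/-- the valuation: membership variables, then counter variables -/
noncomputable def val (m : ℕ) (S : Finset (Fin n)) (k : ℕ) : Bool :=
  if k < n then mem S k else decide ((k - n) % m + 1 ≤ cnt S ((k - n) / m + 1))

lemma val_x (m : ℕ) (S : Finset (Fin n)) {i : ℕ} (h : i < n) : val m S i = mem S i := by
  unfold val
  rw [if_pos h]

lemma val_s (m : ℕ) (S : Finset (Fin n)) (i j : ℕ) (h : j < m) :
    val m S (n + (m * i + j)) = decide (j + 1 ≤ cnt S (i + 1)) := by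
  unfold val
  rw [if_neg (by omega)]
  have e : n + (m * i + j) - n = m * i + j := by omega
  rw [e, Nat.mul_add_mod, Nat.mod_eq_of_lt h, Nat.mul_add_div (by omega), Nat.div_eq_of_lt h,
    Nat.add_zero]

lemma clT_pow (ν : ℕ → Bool) (l : ℕ) (h : litT ν l) : clT ν (2 ^ l) :=
  ⟨l, Nat.testBit_two_pow_self, h⟩

lemma clT_left (ν : ℕ → Bool) (a b : ℕ) (h : clT ν a) : clT ν (a ||| b) := by
  obtain ⟨l, h1, h2⟩ := h
  exact ⟨l, by rw [Nat.testBit_or, h1, Bool.true_or], h2⟩

lemma clT_right (ν : ℕ → Bool) (a b : ℕ) (h : clT ν b) : clT ν (a ||| b) := by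
  obtain ⟨l, h1, h2⟩ := h
  exact ⟨l, by rw [Nat.testBit_or, h1, Bool.or_true], h2⟩

lemma litT_pos (ν : ℕ → Bool) (v : ℕ) (h : ν v = true) : litT ν (2 * v) := by
  unfold litT
  rw [show 2 * v / 2 = v by omega, show 2 * v % 2 = 0 by omega, h]
  rfl

lemma litT_neg (ν : ℕ → Bool) (v : ℕ) (h : ν v = false) : litT ν (2 * v + 1) := by
  unfold litT
  rw [show (2 * v + 1) / 2 = v by omega, show (2 * v + 1) % 2 = 1 by omega, h]
  rfl

/-- mask of the clause: some vertex of the list is not in the set -/
def cmask (c : List ℕ) : ℕ := c.foldr (fun v a => 2 ^ (2 * v + 1) ||| a) 0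

lemma clT_cmask (m : ℕ) (S : Finset (Fin n)) (c : List ℕ) (hlt : ∀ v ∈ c, v < n)
    (h : ∃ v ∈ c, mem S v = false) : clT (val m S) (cmask c) := by
  induction c with
  | nil => obtain ⟨v, hv, -⟩ := h; cases hv
  | cons a c ih =>
    obtain ⟨v, hv, hf⟩ := h
    change clT (val m S) (2 ^ (2 * a + 1) ||| cmask c)
    rcases List.mem_cons.mp hv with rfl | hv
    · apply clT_left
      apply clT_pow
      apply litT_neg
      rw [val_x m S (hlt v (by simp))]
      exact hf
    · apply clT_right
      exact ih (fun w hw => hlt w (List.mem_cons_of_mem _ hw)) ⟨v, hv, hf⟩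

/-- clauses of the counter and of the cycles, with a validity condition -/
def clause (n m : ℕ) (cyc : List (List ℕ)) (t i j : ℕ) : ℕ × Bool :=
  if t = 0 then (2 ^ (2 * i) ||| 2 ^ (2 * (n + (m * i + 0))), decide (i < n)) else
  if t = 1 then (2 ^ (2 * (n + (m * i + j)) + 1) ||| 2 ^ (2 * (n + (m * (i + 1) + j))),
    decide (j < m)) else
  if t = 2 then (2 ^ (2 * (i + 1)) ||| (2 ^ (2 * (n + (m * i + j)) + 1) |||
    2 ^ (2 * (n + (m * (i + 1) + (j + 1))))), decide (i + 1 < n) && decide (j + 1 < m)) else
  if t = 3 then (2 ^ (2 * (i + 1)) ||| 2 ^ (2 * (n + (m * i + (m - 1))) + 1),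
    decide (i + 1 < n)) else
  (cmask (cyc.getD i []), decide (i < cyc.length))

theorem clause_valid (m : ℕ) (hm : 0 < m) (cyc : List (List ℕ)) (S : Finset (Fin n))
    (hcard : cnt S n ≤ m) (hcyc : ∀ c ∈ cyc, (∀ v ∈ c, v < n) ∧ ∃ v ∈ c, mem S v = false)
    (t i j : ℕ) (hv : (clause n m cyc t i j).2 = true) :
    clT (val m S) (clause n m cyc t i j).1 := by
  unfold clause at hv ⊢
  split_ifs at hv ⊢ with h0 h1 h2 h3
  · simp only [decide_eq_true_eq] at hv
    cases hmi : mem S i with
    | true =>
      apply clT_left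
      apply clT_pow
      apply litT_pos
      rw [val_x m S hv, hmi]
    | false =>
      apply clT_right
      apply clT_pow
      apply litT_pos
      rw [val_s m S i 0 hm, cnt_succ_false S i hmi]
      simp
  · simp only [decide_eq_true_eq] at hv
    by_cases hc : j + 1 ≤ cnt S (i + 1)
    · apply clT_right
      apply clT_pow
      apply litT_pos
      rw [val_s m S (i + 1) j hv, decide_eq_true_eq]
      exact hc.trans (cnt_mono S (by omega))
    · apply clT_left
      apply clT_pow
      apply litT_neg
      rw [val_s m S i j hv]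
      simpa using hc
  · simp only [Bool.and_eq_true, decide_eq_true_eq] at hv
    cases hmi : mem S (i + 1) with
    | true =>
      apply clT_left
      apply clT_pow
      apply litT_pos
      rw [val_x m S hv.1, hmi]
    | false =>
      apply clT_right
      by_cases hc : j + 1 ≤ cnt S (i + 1)
      · apply clT_right
        apply clT_pow
        apply litT_pos
        rw [val_s m S (i + 1) (j + 1) hv.2, cnt_succ_false S (i + 1) hmi, decide_eq_true_eq]
        omega
      · apply clT_left
        apply clT_pow
        apply litT_neg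
        rw [val_s m S i j (by omega)]
        simpa using hc
  · simp only [decide_eq_true_eq] at hv
    cases hmi : mem S (i + 1) with
    | true =>
      apply clT_left
      apply clT_pow
      apply litT_pos
      rw [val_x m S hv, hmi]
    | false =>
      apply clT_right
      apply clT_pow
      apply litT_neg
      rw [val_s m S i (m - 1) (by omega)]
      have h4 := cnt_succ_false S (i + 1) hmi
      have h5 := cnt_mono S (show i + 1 + 1 ≤ n by omega)
      simp only [decide_eq_false_iff_not, not_le]
      omega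
  · simp only [decide_eq_true_eq] at hv
    have hmem : cyc.getD i [] ∈ cyc := by
      rw [List.getD_eq_getElem _ _ hv]
      exact List.getElem_mem _
    obtain ⟨h5, h6⟩ := hcyc _ hmem
    exact clT_cmask m S _ h5 h6

/-- the first entries of the data base are clauses of the list -/
def origOk (n m : ℕ) (cyc : List (List ℕ)) (get : ℕ → ℕ) : List (ℕ × ℕ × ℕ) → ℕ → Bool
  | [], _ => true
  | d :: ds, k => Nat.beq (get k) (clause n m cyc d.1 d.2.1 d.2.2).1 &&
      ((clause n m cyc d.1 d.2.1 d.2.2).2 && origOk n m cyc get ds (k + 1))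

theorem origOk_sound (m : ℕ) (hm : 0 < m) (cyc : List (List ℕ)) (S : Finset (Fin n))
    (hcard : cnt S n ≤ m) (hcyc : ∀ c ∈ cyc, (∀ v ∈ c, v < n) ∧ ∃ v ∈ c, mem S v = false)
    (get : ℕ → ℕ) (ds : List (ℕ × ℕ × ℕ)) (k : ℕ) (h : origOk n m cyc get ds k = true) :
    ∀ i, k ≤ i → i < k + ds.length → clT (val m S) (get i) := by
  induction ds generalizing k with
  | nil => intro i h1 h2; simp only [List.length_nil] at h2; omega
  | cons d ds ih =>
    intro i h1 h2
    rw [origOk, Bool.and_eq_true, Bool.and_eq_true] at h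
    obtain ⟨ha, hb, hc⟩ := h
    rcases Nat.eq_or_lt_of_le h1 with rfl | h3
    · rw [Nat.eq_of_beq_eq_true ha]
      exact clause_valid m hm cyc S hcard hcyc _ _ _ hb
    · exact ih (k + 1) hc i h3 (by simp only [List.length_cons] at h2; omega)

/-- upper bound for the order of an induced forest from a checked refutation -/
theorem card_lt (nb : List ℕ) (m : ℕ) (hm : 0 < m) (cyc : List (List ℕ))
    (hcyc : cyc.all (cycOk n nb) = true) (t : Tr) (ds : List (ℕ × ℕ × ℕ)) (L : List ℕ)
    (horig : origOk n m cyc t.get ds 0 = true) (hchk : chkL t L ds.length = true)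
    (hL : L ≠ []) (hlast : t.get (ds.length + L.length - 1) = 0) (S : Finset (Fin n))
    (hac : ((gr n nb).induce (S : Set (Fin n))).IsAcyclic) : S.card + m < n := by
  by_contra hcon
  have h1 := cnt_all S
  have hcard : cnt S n ≤ m := by omega
  have hc : ∀ c ∈ cyc, (∀ v ∈ c, v < n) ∧ ∃ v ∈ c, mem S v = false := by
    intro c hc
    have h2 := (List.all_eq_true.mp hcyc) c hc
    refine ⟨?_, cycle_avoids hac c h2⟩
    unfold cycOk at h2
    simp only [Bool.and_eq_true, List.all_eq_true, decide_eq_true_eq] at h2
    intro v hv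
    simpa using h2.1.1.2 v hv
  have h3 := origOk_sound m hm cyc S hcard hc t.get ds 0 horig
  have h4 := chkL_sound (val m S) t L ds.length (fun j hj => h3 j (Nat.zero_le _) (by omega)) hchk
    (ds.length + L.length - 1) (by
      have : 0 < L.length := List.length_pos_iff.mpr hL
      omega)
  rw [hlast] at h4
  exact clT_zero _ h4

end Pool.TH412.AB
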